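import Mathlib
import Pool.Agent.MP_2a44fd_gt.CB.Main

set_option autoImplicit false
open scoped Pointwise

namespace Pool.Agent.Results.MP_2a44fd_gt.CurvatureBound

/-- The fifth Busemann-Petty problem in every dimension `n ≥ 3` under a one-sided curvature bound:
if the gauge `N` of `K` is `C²` away from the origin and `N ∑ ∂ᵢ∂ᵢ N < n ∑ (∂ᵢ N) ^ 2` for the
derivatives `∂ᵢ` along some vectors `v i`, and `K` is a positive multiple of the polar of its
intersection body, then `K` is a linear image of the unit ball. -/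
theorem result :
  ∀ n : ℕ, 3 ≤ n → ∀ K : Set (EuclideanSpace ℝ (Fin n)),
    IsCompact K → Convex ℝ K → (interior K).Nonempty → (∀ x ∈ K, -x ∈ K) →
    ContDiffOn ℝ 2 (gauge K) {0}ᶜ →
    (∃ (m : ℕ) (v : Fin m → EuclideanSpace ℝ (Fin n)), ∀ x, x ≠ 0 →
      gauge K x * ∑ i, fderiv ℝ (fun y => fderiv ℝ (gauge K) y (v i)) x (v i) <
        n * ∑ i, (fderiv ℝ (gauge K) x (v i)) ^ 2) →
    (∃ c : ℝ, 0 < c ∧ K = c • {y : EuclideanSpace ℝ (Fin n) |
        ∀ x ∈ {x : EuclideanSpace ℝ (Fin n) |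
          ‖x‖ ≤ (MeasureTheory.Measure.hausdorffMeasure ((n : ℝ) - 1)
                  (K ∩ {z : EuclideanSpace ℝ (Fin n) | inner ℝ x z = 0})).toReal},
          inner ℝ x y ≤ 1}) →
    ∃ A : EuclideanSpace ℝ (Fin n) ≃ₗ[ℝ] EuclideanSpace ℝ (Fin n),
      K = A '' Metric.closedBall (0 : EuclideanSpace ℝ (Fin n)) 1 := by
  rintro n hn K h1 h2 h3 h4 hc ⟨m, v, hv⟩ hK
  exact Pool.Agent.MP_2a44fd_gt.CB.final hn h1 h2 h3 h4 hc v hv
    (Pool.Agent.MP_2a44fd_gt.hd.bridgeStmt n hn K h1 h2 h3 h4 hK)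

end Pool.Agent.Results.MP_2a44fd_gt.CurvatureBound
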