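import Mathlib
import Pool.Agent.MP_2a44fd_gt.hd.All

set_option autoImplicit false
open scoped Pointwise

namespace Pool.Agent.Results.MP_2a44fd_gt.HighDimension

/-- The fifth Busemann-Petty problem in all large dimensions: there is `n0` such that for every
`n ≥ n0`, an origin-symmetric convex body `K` in `n`-space which is a positive multiple of the polar
of its intersection body is a linear image of the unit ball. -/
theorem result :
  ∃ n0 : ℕ, ∀ n : ℕ, n0 ≤ n → ∀ K : Set (EuclideanSpace ℝ (Fin n)),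
    IsCompact K → Convex ℝ K → (interior K).Nonempty → (∀ x ∈ K, -x ∈ K) →
    (∃ c : ℝ, 0 < c ∧ K = c • {y : EuclideanSpace ℝ (Fin n) |
        ∀ x ∈ {x : EuclideanSpace ℝ (Fin n) |
          ‖x‖ ≤ (MeasureTheory.Measure.hausdorffMeasure ((n : ℝ) - 1)
                  (K ∩ {z : EuclideanSpace ℝ (Fin n) | inner ℝ x z = 0})).toReal},
          inner ℝ x y ≤ 1}) →
    ∃ A : EuclideanSpace ℝ (Fin n) ≃ₗ[ℝ] EuclideanSpace ℝ (Fin n),
      K = A '' Metric.closedBall (0 : EuclideanSpace ℝ (Fin n)) 1 :=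
  Pool.Agent.MP_2a44fd_gt.hd.final_of Pool.Agent.MP_2a44fd_gt.hd.mainStmt
    Pool.Agent.MP_2a44fd_gt.hd.bridgeStmt

end Pool.Agent.Results.MP_2a44fd_gt.HighDimension
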