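import Mathlib
import Pool.Agent.MP_2a44fd_gt.Main

set_option autoImplicit false
open scoped Pointwise

namespace Pool.Agent.Results.MP_2a44fd_gt.TwoBlockSymmetric

/-- The fifth Busemann-Petty problem for bodies invariant under `O(V) × O(V^⊥)`, for an arbitrary
linear subspace `V` (a line `V` gives all origin-symmetric bodies of revolution): for `n ≥ 3`, if
such an origin-symmetric convex body `K` is a positive multiple of the polar of its intersection
body, then `K` is a linear image of the unit ball. -/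
theorem result :
  ∀ n : ℕ, 3 ≤ n → ∀ K : Set (EuclideanSpace ℝ (Fin n)),
    IsCompact K → Convex ℝ K → (interior K).Nonempty → (∀ x ∈ K, -x ∈ K) →
    ∀ V : Submodule ℝ (EuclideanSpace ℝ (Fin n)),
    (∀ R : EuclideanSpace ℝ (Fin n) ≃ₗᵢ[ℝ] EuclideanSpace ℝ (Fin n),
      (∀ v ∈ V, R v ∈ V) → ∀ x ∈ K, R x ∈ K) →
    (∃ c : ℝ, 0 < c ∧ K = c • {y : EuclideanSpace ℝ (Fin n) |
        ∀ x ∈ {x : EuclideanSpace ℝ (Fin n) |
          ‖x‖ ≤ (MeasureTheory.Measure.hausdorffMeasure ((n : ℝ) - 1)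
                  (K ∩ {z : EuclideanSpace ℝ (Fin n) | inner ℝ x z = 0})).toReal},
          inner ℝ x y ≤ 1}) →
    ∃ A : EuclideanSpace ℝ (Fin n) ≃ₗ[ℝ] EuclideanSpace ℝ (Fin n),
      K = A '' Metric.closedBall (0 : EuclideanSpace ℝ (Fin n)) 1 := by
  rintro n hn K hK hconv hint hsym V hV ⟨c, hc, hKc⟩
  exact Pool.Agent.MP_2a44fd_gt.main K V (by simpa using hn) (by simp) hK hconv hint hsym
    (Pool.Agent.MP_2a44fd_gt.inv_of_iso K V hV) hc hKc

end Pool.Agent.Results.MP_2a44fd_gt.TwoBlockSymmetric
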